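import Mathlib

namespace Pool.Agent.Results.MP_1f0dde_co.Exists

/-- `IsP S x y`: the position `(x, y)` is a P-position of the ruleset `S` (normal play). -/
def IsP (S : Finset (ℕ × ℕ)) (x y : ℕ) : Prop :=
  ∀ s ∈ S, 0 < s.1 + s.2 → s.1 ≤ x → s.2 ≤ y → ¬ IsP S (x - s.1) (y - s.2)
termination_by x + y
decreasing_by omega

/-- The outcomes on the line `y = f x` are eventually periodic. -/
def EvPeriodic (S : Finset (ℕ × ℕ)) (f : ℤ → ℚ) : Prop :=
  ∃ T : ℕ, 0 < T ∧ ∃ x' : ℕ, (∀ x : ℤ, (∃ k : ℤ, f x = k) → ∃ k : ℤ, f (x + T) = k) ∧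
    ∀ x y y' : ℕ, x' ≤ x → f x = y → f (x + T) = y' → (IsP S x y ↔ IsP S (x + T) y')

def L : List (ℕ × ℕ) := [(7, 0), (8, 0), (14, 0), (15, 0), (18, 0), (24, 0), (27, 0), (28, 0), (34, 0), (35, 0), (32, 0), (32, 1), (36, 0), (33, 1), (4, 0), (1, 0), (6, 0), (9, 0)]

lemma L_pos : ∀ t ∈ L, 0 < t.1 + t.2 := by decide

def Rec (Q : ℕ → ℕ → Prop) (x y : ℕ) : Prop :=
  Q x y ↔ ∀ t ∈ L, t.1 ≤ x → t.2 ≤ y → ¬ Q (x - t.1) (y - t.2)

lemma uniq (Q R : ℕ → ℕ → Prop) (hQ : ∀ x y, Rec Q x y) (hR : ∀ x y, Rec R x y) :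
    ∀ x y, Q x y ↔ R x y := by
  have : ∀ n x y, x + y = n → (Q x y ↔ R x y) := by
    intro n
    induction n using Nat.strong_induction_on with
    | _ n ih =>
      intro x y hn
      rw [show Q x y ↔ _ from hQ x y, show R x y ↔ _ from hR x y]
      refine forall_congr' fun t => forall_congr' fun ht => forall_congr' fun h1 =>
        forall_congr' fun h2 => not_congr ?_
      have := L_pos t ht
      exact ih _ (by omega) _ _ rfl
  exact fun x y => this _ x y rfl

def e (p q : ℕ) : Prop := p.choose (q + 1) % 2 = 0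
def ea (p q : ℕ) : Prop := 1 ≤ p ∧ e (p - 1) q
def eb (p q : ℕ) : Prop := 1 ≤ p ∧ 1 ≤ q ∧ e (p - 1) (q - 1)

lemma e_iff (p q : ℕ) : e p q ↔ (ea p q ↔ eb p q) := by
  unfold ea eb e
  rcases p with _ | p
  · simp
  · rcases q with _ | q
    · simp; omega
    · simp only [Nat.add_sub_cancel, Nat.choose_succ_succ' p (q + 1), Nat.le_add_left, true_and]
      omega

def R (x y : ℕ) : Prop :=
  (x % 42 = 0 ∨ x % 42 = 2 ∨ x % 42 = 5) ∨
    (x % 42 = 21 ∧ ¬ ea (x / 42) y ∧ ¬ eb (x / 42) y) ∨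
    (x % 42 = 25 ∧ ¬ ea (x / 42) y ∧ eb (x / 42) y) ∨
    (x % 42 = 22 ∧ ea (x / 42) y ∧ ¬ eb (x / 42) y) ∨
    (x % 42 = 31 ∧ e (x / 42) y)

def free (r : ℕ) : Prop := r = 0 ∨ r = 2 ∨ r = 5 ∨ r = 21 ∨ r = 25 ∨ r = 22 ∨ r = 31

instance (r : ℕ) : Decidable (free r) := by unfold free; infer_instance

lemma R_no {x y : ℕ} (h : ¬ free (x % 42)) : ¬ R x y := by
  unfold free at h; unfold R; tauto

lemma R_21 (p y : ℕ) : R (42 * p + 21) y ↔ ¬ ea p y ∧ ¬ eb p y := by
  have h1 : (42 * p + 21) % 42 = 21 := by omega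
  have h2 : (42 * p + 21) / 42 = p := by omega
  simp [R, h1, h2]

lemma R_25 (p y : ℕ) : R (42 * p + 25) y ↔ ¬ ea p y ∧ eb p y := by
  have h1 : (42 * p + 25) % 42 = 25 := by omega
  have h2 : (42 * p + 25) / 42 = p := by omega
  simp [R, h1, h2]

lemma R_22 (p y : ℕ) : R (42 * p + 22) y ↔ ea p y ∧ ¬ eb p y := by
  have h1 : (42 * p + 22) % 42 = 22 := by omega
  have h2 : (42 * p + 22) / 42 = p := by omega
  simp [R, h1, h2]

lemma R_31 (p y : ℕ) : R (42 * p + 31) y ↔ e p y := by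
  have h1 : (42 * p + 31) % 42 = 31 := by omega
  have h2 : (42 * p + 31) / 42 = p := by omega
  simp [R, h1, h2]

lemma gate (p y r : ℕ) (W : List (ℕ × ℕ)) (hW : ∀ t ∈ W, t ∈ L)
    (h : ∀ t ∈ L, t ∈ W ∨ (t.1 < 42 ∧ ¬ free ((r + 42 - t.1) % 42))) :
    (∀ t ∈ L, t.1 ≤ 42 * p + r → t.2 ≤ y → ¬ R (42 * p + r - t.1) (y - t.2)) ↔
    (∀ t ∈ W, t.1 ≤ 42 * p + r → t.2 ≤ y → ¬ R (42 * p + r - t.1) (y - t.2)) := by
  refine ⟨fun H t ht => H t (hW t ht), fun H t ht h1 h2 => ?_⟩
  rcases h t ht with h | h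
  · exact H t h h1 h2
  · apply R_no
    rw [show (42 * p + r - t.1) % 42 = (r + 42 - t.1) % 42 by omega]
    exact h.2

lemma inE (p y a r : ℕ) (h : a + 31 = r + 42) (hr : r < a) :
    (a ≤ 42 * p + r → ¬ R (42 * p + r - a) y) ↔ ¬ (1 ≤ p ∧ e (p - 1) y) := by
  rcases p with _ | p
  · simp; omega
  · have : 42 * (p + 1) + r - a = 42 * p + 31 := by omega
    rw [this, R_31]
    simp; omega

lemma recR (x y : ℕ) : Rec R x y := by
  unfold Rec
  by_cases hx : free (x % 42)
  swap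
  · refine iff_of_false (R_no hx) fun h => ?_
    have k : ∀ r ∈ List.range 42, ¬ free r →
        ∃ t ∈ L, t.2 = 0 ∧ (r = t.1 ∨ r = t.1 + 2 ∨ r = t.1 + 5) := by decide
    obtain ⟨⟨a, b⟩, h3, rfl, h2⟩ := k (x % 42) (List.mem_range.2 (by omega)) hx
    simp only at h2
    refine h _ h3 (by simp only; omega) (by simp) (Or.inl ?_)
    simp only
    omega
  · obtain ⟨p, r, rfl, hr⟩ : ∃ p r, x = 42 * p + r ∧ free r := ⟨x / 42, x % 42, by omega, hx⟩
    rcases hr with rfl | rfl | rfl | rfl | rfl | rfl | rfl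
    · rw [gate p y 0 [] (by decide) (by decide)]
      exact iff_of_true (Or.inl (by omega)) (by simp)
    · rw [gate p y 2 [] (by decide) (by decide)]
      exact iff_of_true (Or.inl (by omega)) (by simp)
    · rw [gate p y 5 [] (by decide) (by decide)]
      exact iff_of_true (Or.inl (by omega)) (by simp)
    · rw [gate p y 21 [(32, 0), (32, 1)] (by decide) (by decide), R_21]
      have a1 := inE p y 32 21 rfl (by norm_num)
      have a2 := inE p (y - 1) 32 21 rfl (by norm_num)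
      simp only [List.forall_mem_cons, List.not_mem_nil, Nat.sub_zero, Nat.zero_le, true_imp_iff,
        IsEmpty.forall_iff, implies_true, and_true, ea, eb]
      tauto
    · rw [gate p y 25 [(36, 0), (4, 0)] (by decide) (by decide), R_25]
      have a1 := inE p y 36 25 rfl (by norm_num)
      have a2 : 42 * p + 25 - 4 = 42 * p + 21 := by omega
      have a3 : 4 ≤ 42 * p + 25 := by omega
      simp only [List.forall_mem_cons, List.not_mem_nil, Nat.sub_zero, Nat.zero_le, true_imp_iff,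
        IsEmpty.forall_iff, implies_true, and_true, a2, R_21, a3]
      unfold ea at *
      tauto
    · rw [gate p y 22 [(33, 1), (1, 0)] (by decide) (by decide), R_22]
      have a1 := inE p (y - 1) 33 22 rfl (by norm_num)
      have a2 : 42 * p + 22 - 1 = 42 * p + 21 := by omega
      have a3 : 1 ≤ 42 * p + 22 := by omega
      simp only [List.forall_mem_cons, List.not_mem_nil, Nat.sub_zero, Nat.zero_le, true_imp_iff,
        IsEmpty.forall_iff, implies_true, and_true, a2, R_21, a3]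
      unfold eb at *
      tauto
    · rw [gate p y 31 [(6, 0), (9, 0)] (by decide) (by decide), R_31]
      have a1 : 42 * p + 31 - 6 = 42 * p + 25 := by omega
      have a2 : 42 * p + 31 - 9 = 42 * p + 22 := by omega
      have a3 : 6 ≤ 42 * p + 31 := by omega
      have a4 : 9 ≤ 42 * p + 31 := by omega
      simp only [List.forall_mem_cons, List.not_mem_nil, Nat.sub_zero, Nat.zero_le, true_imp_iff,
        IsEmpty.forall_iff, implies_true, and_true, a1, a2, R_25, R_22, a3, a4, e_iff p y]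
      tauto

/-! parity of binomial coefficients -/

lemma lucas (n k : ℕ) : n.choose k % 2 = ((n % 2).choose (k % 2) * (n / 2).choose (k / 2)) % 2 :=
  haveI : Fact (Nat.Prime 2) := ⟨Nat.prime_two⟩
  Choose.choose_modEq_choose_mod_mul_choose_div_nat (p := 2)

def g (n : ℕ) : Prop := (2 * n + 1).choose n % 2 = 1

lemma cb (k : ℕ) (hk : 1 ≤ k) : (2 * k).choose k % 2 = 0 := by
  have := Nat.two_dvd_centralBinom_of_one_le hk
  rw [Nat.centralBinom_eq_two_mul_choose] at this
  omega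

lemma g_odd (k : ℕ) : g (2 * k + 1) ↔ g k := by
  unfold g
  rw [lucas (2 * (2 * k + 1) + 1)]
  have h1 : (2 * (2 * k + 1) + 1) % 2 = 1 := by omega
  have h2 : (2 * k + 1) % 2 = 1 := by omega
  have h3 : (2 * (2 * k + 1) + 1) / 2 = 2 * k + 1 := by omega
  have h4 : (2 * k + 1) / 2 = k := by omega
  rw [h1, h2, h3, h4]; simp

lemma g_even (k : ℕ) (hk : 1 ≤ k) : ¬ g (2 * k) := by
  unfold g
  rw [lucas (2 * (2 * k) + 1)]
  have h1 : (2 * (2 * k) + 1) % 2 = 1 := by omega
  have h2 : (2 * k) % 2 = 0 := by omega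
  have h3 : (2 * (2 * k) + 1) / 2 = 2 * k := by omega
  have h4 : (2 * k) / 2 = k := by omega
  rw [h1, h2, h3, h4]
  have := cb k hk
  simp; omega

lemma g_pow (k : ℕ) : g (2 ^ k - 1) := by
  induction k with
  | zero => simp [g]
  | succ k ih =>
    have : 2 ^ (k + 1) - 1 = 2 * (2 ^ k - 1) + 1 := by
      have := Nat.one_le_two_pow (n := k); rw [pow_succ]; omega
    rw [this, g_odd]; exact ih

lemma g_noAP : ∀ d : ℕ, 0 < d → ∀ a, ¬ ∀ t, g (a + t * d) := by
  intro d
  induction d using Nat.strong_induction_on with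
  | _ d ih =>
    intro hd a h
    have odd : ∀ n, 1 ≤ n → g n → n % 2 = 1 := by
      intro n hn hg
      by_contra h2
      have : n = 2 * (n / 2) := by omega
      rw [this] at hg
      exact g_even _ (by omega) hg
    have h1 := odd _ (by omega) (h 1)
    have h2 := odd _ (by omega) (h 2)
    refine ih (d / 2) (by omega) (by omega) (a / 2) fun t => ?_
    have := h t
    have e : a + t * d = 2 * (a / 2 + t * (d / 2)) + 1 := by
      have e1 : d = 2 * (d / 2) := by omega
      have e2 : t * d = 2 * (t * (d / 2)) := by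
        conv_lhs => rw [e1]
        ring
      omega
    rwa [e, g_odd] at this

lemma line (n : ℕ) (hn : 1 ≤ n) : R (42 * (2 * n + 3) + 22) n ↔ g (n + 1) := by
  rw [R_22]
  unfold ea eb e g
  have h1 := cb (n + 1) (by omega)
  have h2 : (2 * (n + 1) + 1).choose (n + 1) =
      (2 * (n + 1)).choose n + (2 * (n + 1)).choose (n + 1) := Nat.choose_succ_succ' _ _
  have h3 : 2 * n + 3 - 1 = 2 * (n + 1) := by omega
  have h4 : n - 1 + 1 = n := by omega
  rw [h3, h4, h2]
  omega

lemma recP (x y : ℕ) : Rec (IsP L.toFinset) x y := by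
  unfold Rec
  rw [IsP]
  simp only [List.mem_toFinset]
  exact forall_congr' fun t => forall_congr' fun ht => ⟨fun h => h (L_pos t ht), fun h _ => h⟩

lemma P_line (n : ℕ) (hn : 1 ≤ n) : IsP L.toFinset (84 * n + 148) n ↔ g (n + 1) := by
  rw [uniq _ R recP recR, ← line n hn, show 84 * n + 148 = 42 * (2 * n + 3) + 22 by ring]

theorem result : ∃ S : Finset (ℕ × ℕ), (0, 0) ∉ S ∧ ∃ (p q : ℕ) (m : ℚ), 0 < p ∧ 0 < q ∧
    {x : ℕ | ∃ y : ℕ, (p : ℚ) * x / q + m = y}.Infinite ∧
    ¬ EvPeriodic S fun x => (p : ℚ) * x / q + m := by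
  have hf : ∀ n : ℕ, ((1 : ℕ) : ℚ) * ((84 * n + 148 : ℕ) : ℚ) / ((84 : ℕ) : ℚ) + (-37 / 21) = n := by
    intro n; push_cast; ring
  refine ⟨L.toFinset, by decide, 1, 84, -37 / 21, by norm_num, by norm_num, ?_, ?_⟩
  · refine Set.infinite_of_injective_forall_mem (f := fun n : ℕ => 84 * n + 148) ?_ fun n => ⟨n, hf n⟩
    intro a b h
    simp only at h
    omega
  · rintro ⟨T, hT, x', h1, h2⟩
    obtain ⟨k, hk⟩ := h1 148 ⟨0, by norm_num⟩
    have hk' : (T : ℤ) = 84 * k := by
      have : (T : ℚ) = 84 * k := by push_cast at hk; linarith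
      exact_mod_cast this
    obtain ⟨d, rfl⟩ : ∃ d : ℕ, T = 84 * d := ⟨T / 84, by omega⟩
    have step : ∀ n : ℕ, 1 ≤ n → x' ≤ n → g (n + 1) → g (n + d + 1) := by
      intro n hn hx hg
      have := h2 (84 * n + 148) n (n + d) (by omega) (by push_cast; ring) (by push_cast; ring)
      rw [P_line n hn, show 84 * n + 148 + 84 * d = 84 * (n + d) + 148 by ring,
        P_line _ (by omega)] at this
      exact this.1 hg
    have hx : x' < 2 ^ x' := Nat.lt_two_pow_self
    have hN : 2 ^ (x' + 2) - 1 = (2 ^ (x' + 2) - 2) + 1 := by simp only [pow_succ]; omega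
    have hb : x' + 1 ≤ 2 ^ (x' + 2) - 2 := by simp only [pow_succ]; omega
    have g0 := g_pow (x' + 2)
    rw [hN] at g0
    generalize 2 ^ (x' + 2) - 2 = N at g0 hb
    refine g_noAP d (by omega) (N + 1) fun t => ?_
    induction t with
    | zero => simpa using g0
    | succ t ih =>
      have := step (N + t * d) (by omega) (by omega) (by rwa [show N + t * d + 1 = N + 1 + t * d by ring])
      rwa [show N + t * d + d + 1 = N + 1 + (t + 1) * d by ring] at this

end Pool.Agent.Results.MP_1f0dde_co.Exists
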